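import Pool.Agent.Run7.h802.HP.All

/-!
MP_6a3dac_ag: a positive proportion of the hypersurfaces of each degree `d ≥ 3` and each dimension
`n ≥ 1` over the rational numbers, ordered by the height of the coefficients, has regular proper
flat models over the rings of integers of all number fields: for each of these hypersurfaces `X` and
every number field `E` the variety `X_E` over `E` has a regular proper flat model over the ring of
integers of `E`.

The forms of degree `d` in `n + 2` variables with integral coefficients in the box `[-H, H]` are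
counted. The result is unconditional.

1. There is `δ > 0` such that for all large `H` the proportion of the forms in the box which define
   such a smooth hypersurface is at least `δ`.
2. Good reduction at the small primes suffices for all but an arbitrarily small proportion: for
   every `ε > 0` there is `B` such that for every modulus `Q` divisible by the primes up to `B` and
   every residue class modulo `Q` of forms with good reduction at the primes dividing `Q`, the
   proportion of the forms in the class which define such a smooth hypersurface is at least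
   `1 - ε` for all large `H`.

Proof: the forms having a singular zero modulo `p`, but not exactly one, rational and nondegenerate,
are contained modulo `p` in a subset of codimension two independent of `p`, so by the sieve of
Ekedahl few forms meet it for some large prime `p`. In the remaining case the model over a prime of
`E` above `p` is given by blowing up the node repeatedly; the value of the form at the critical
point may be divisible by any power of the prime, so that also the primes of `E` ramified over `p`
are allowed.
-/

set_option autoImplicit false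

open AlgebraicGeometry CategoryTheory CategoryTheory.Limits MvPolynomial

open scoped NumberField

namespace Pool.Agent.Results.MP_6a3dac_ag.PositiveProportion

/-- The exponents of the monomials of degree `d` in the variables `X_0, ..., X_(n+1)`. -/
abbrev Exponent (n d : ℕ) : Type := {m : Fin (n + 2) → Fin (d + 1) // ∑ i, (m i : ℕ) = d}

/-- The form of degree `d` with the coefficients `a`. -/
noncomputable def form {R : Type} [CommRing R] {n d : ℕ} (a : Exponent n d → R) :
    MvPolynomial (Fin (n + 2)) R :=
  ∑ m, C (a m) * ∏ i, X i ^ ((m.1 i : Fin (d + 1)) : ℕ)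

/-- The form with the integral coefficients `a`, over the ring `R`. -/
noncomputable def formOver (R : Type) [CommRing R] {n d : ℕ} (a : Exponent n d → ℤ) :
    MvPolynomial (Fin (n + 2)) R :=
  form fun m => ((a m : ℤ) : R)

/-- `x` is a zero of the form and of all its partial derivatives. -/
def IsSingularZero {k : Type} [Field k] {n d : ℕ} (a : Exponent n d → ℤ) (x : Fin (n + 2) → k) :
    Prop :=
  eval x (formOver k a) = 0 ∧ ∀ i, eval x (pderiv i (formOver k a)) = 0

/-- The hypersurface over the rational numbers is smooth. -/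
def IsSmooth {n d : ℕ} (a : Exponent n d → ℤ) : Prop :=
  ∀ (k : Type) [Field k] [CharZero k] (x : Fin (n + 2) → k), IsSingularZero a x → x = 0

/-- The hypersurface modulo `p` is smooth. -/
def HasGoodReduction {n d : ℕ} (a : Exponent n d → ℤ) (p : ℕ) : Prop :=
  ∀ (k : Type) [Field k] [CharP k p] (x : Fin (n + 2) → k), IsSingularZero a x → x = 0

/-- The dimension of the local ring `A` equals the dimension of its cotangent space. -/
def HasRegularDimension (A : Type) [CommRing A] [IsLocalRing A] : Prop :=
  ringKrullDim A = (((Module.finrank (IsLocalRing.ResidueField A)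
    (IsLocalRing.CotangentSpace A) : ℕ) : ℕ∞) : WithBot ℕ∞)

/-- The generic fibre of `g` is isomorphic over `E` to `X` with the morphism `f`. -/
def HasGenericFibre {E : Type} [Field E] {X Y : Scheme.{0}}
    (f : X ⟶ Spec (CommRingCat.of E)) (g : Y ⟶ Spec (CommRingCat.of (𝓞 E))) : Prop :=
  ∃ e : pullback g (Spec.map (CommRingCat.ofHom (algebraMap (𝓞 E) E))) ≅ X,
    e.hom ≫ f = pullback.snd g (Spec.map (CommRingCat.ofHom (algebraMap (𝓞 E) E)))

/-- The morphism `g` from `Y` is a regular proper flat model over the ring of integers of `E` of `X`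
with the morphism `f` to `Spec E`. -/
def IsRegularProperFlatModel {E : Type} [Field E] {X Y : Scheme.{0}}
    (f : X ⟶ Spec (CommRingCat.of E)) (g : Y ⟶ Spec (CommRingCat.of (𝓞 E))) : Prop :=
  IsProper g ∧ Flat g ∧ (∀ y : Y, HasRegularDimension (Y.presheaf.stalk y)) ∧ HasGenericFibre f g

/-- The structure morphism of `Proj ℬ` over `E`. -/
noncomputable def structureMorphism {E B : Type} [Field E] [CommRing B] [Algebra E B]
    (ℬ : ℕ → Submodule E B) [GradedAlgebra ℬ] : Proj ℬ ⟶ Spec (CommRingCat.of E) :=
  Proj.toSpecZero ℬ ≫ Spec.map (CommRingCat.ofHom (algebraMap E (ℬ 0)))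

/-- Every scheme `X` over `E` isomorphic over `E` to the hypersurface `Proj (E[X] / (G))` has a
regular proper flat model over the ring of integers of `E`. -/
def HypersurfaceHasModel {E : Type} [Field E] {m : ℕ} (G : MvPolynomial (Fin m) E) : Prop :=
  ∀ (B : Type) [CommRing B] [Algebra E B]
    (π : MvPolynomial (Fin m) E →ₐ[E] B), Function.Surjective π →
    RingHom.ker π = Ideal.span {G} →
  ∀ (ℬ : ℕ → Submodule E B) [GradedAlgebra ℬ],
    (∀ d, ℬ d = (homogeneousSubmodule (Fin m) E d).map π.toLinearMap) →
  ∀ (X : Scheme.{0}) (f : X ⟶ Spec (CommRingCat.of E)) (i : X ≅ Proj ℬ),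
    i.hom ≫ structureMorphism ℬ = f →
  ∃ (Y : Scheme.{0}) (g : Y ⟶ Spec (CommRingCat.of (𝓞 E))), IsRegularProperFlatModel f g

/-- The form with the integral coefficients `a` defines a smooth hypersurface over the rational
numbers, and for every number field `E` the hypersurface over `E` given by the form has a regular
proper flat model over the ring of integers of `E`. -/
def IsGood {n d : ℕ} (a : Exponent n d → ℤ) : Prop :=
  IsSmooth a ∧ ∀ (E : Type) [Field E] [NumberField E], HypersurfaceHasModel (formOver E a)

/-- The number of all families of coefficients in the box `[-H, H]`. -/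
noncomputable def boxCard (n d H : ℕ) : ℝ :=
  (Nat.card {a : Exponent n d → ℤ // ∀ m, |a m| ≤ H} : ℝ)

theorem boxCard_eq (n d H : ℕ) :
    boxCard n d H = (2 * (H : ℝ) + 1) ^ Fintype.card (Exponent n d) := by
  rw [← Pool.Agent.Run7.h796.HP.card_box (σ := Exponent n d) H]
  unfold boxCard
  have h : {a : Exponent n d → ℤ | ∀ m, |a m| ≤ H} =
      (Pool.Agent.Run7.h796.HP.box (Exponent n d) H : Set (Exponent n d → ℤ)) := by
    ext a
    simp [Pool.Agent.Run7.h796.HP.mem_box]
  change ((Nat.card ({a : Exponent n d → ℤ | ∀ m, |a m| ≤ H} : Set _) : ℕ) : ℝ) = _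
  rw [Nat.card_coe_set_eq, h, Set.ncard_coe_finset]

theorem result :
    (∀ n d : ℕ, 1 ≤ n → 3 ≤ d → ∃ δ : ℝ, 0 < δ ∧ ∃ H₀ : ℕ, ∀ H : ℕ, H₀ ≤ H →
      δ * boxCard n d H ≤
        (Nat.card {a : Exponent n d → ℤ // (∀ m, |a m| ≤ H) ∧ IsGood a} : ℝ)) ∧
    (∀ n d : ℕ, 1 ≤ n → 3 ≤ d → ∀ ε : ℝ, 0 < ε → ∃ B : ℕ, ∀ Q : ℕ, 0 < Q →
      (∀ p : ℕ, p.Prime → p ≤ B → p ∣ Q) →
      ∀ c : Exponent n d → ℤ, (∀ p : ℕ, p.Prime → p ∣ Q → HasGoodReduction c p) →
      ∃ H₀ : ℕ, ∀ H : ℕ, H₀ ≤ H → (1 - ε) * boxCard n d H ≤
        (Nat.card {b : Exponent n d → ℤ // (∀ m, |b m| ≤ H) ∧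
          IsGood fun m => c m + Q * b m} : ℝ)) := by
  have key : ∀ n d : ℕ, 1 ≤ n → 3 ≤ d → ∀ a : Exponent n d → ℤ,
      Pool.Agent.Run7.h802.HP.GenSmooth a →
      (∀ p : ℕ, p.Prime → Pool.Agent.Run7.h802.HP.GoodAt a p ∨
        Pool.Agent.Run7.h802.HP.NodeAt a p) → IsGood a := by
    intro n d hn hd a hs hp
    refine ⟨hs, ?_⟩
    intro K _ _ B _ _ π hπ hker ℬ _ hℬ V f i hi
    exact Pool.Agent.Run7.h802.HP.model_O2 hn (Pool.Agent.Run7.h802.HP.formR K a) d (by omega)
        (Pool.Agent.Run7.h802.HP.formR_hom K a)
        (Pool.Agent.Run7.h802.HP.smooth_of (by omega) a hs)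
        (Pool.Agent.Run7.h802.HP.locReg2_of a hp) π hπ hker ℬ hℬ f i hi
  simp only [boxCard_eq]
  refine ⟨?_, ?_⟩
  · intro n d hn hd
    exact (Pool.Agent.Run7.h802.HP.allDens n d hn hd IsGood (key n d hn hd)).2
  · intro n d hn hd
    exact (Pool.Agent.Run7.h802.HP.allDens n d hn hd IsGood (key n d hn hd)).1

end Pool.Agent.Results.MP_6a3dac_ag.PositiveProportion
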