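import Pool.Agent.Run7.h275.S.FE

/-!
# Regular flat models to which all points over valuation rings of bounded ramification extend
-/

set_option autoImplicit false
set_option linter.unusedVariables false

namespace Pool.Agent.Results.MP_6a3dac_ag.RegularModelsAllPoints

open AlgebraicGeometry CategoryTheory CategoryTheory.Limits

/-- The complement of the open set `U` is a divisor with strict normal crossings at the point `x`, or does not contain `x`: there
are generators of the maximal ideal of the local ring at `x`, as many as the dimension, such that the complement of `U` is defined in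
the spectrum of the local ring by the product of some of them. -/
def SNCAt {Y : Scheme.{0}} (U : Y.Opens) (x : Y) : Prop :=
  ∃ (d : ℕ) (t : Fin d → Y.presheaf.stalk x) (J : Finset (Fin d)),
    Ideal.span (Set.range t) = IsLocalRing.maximalIdeal (Y.presheaf.stalk x) ∧
    ringKrullDim (Y.presheaf.stalk x) = d ∧
    ∀ z : Spec (Y.presheaf.stalk x), Y.fromSpecStalk x z ∈ U ↔
      ∀ j ∈ J, t j ∉ (show PrimeSpectrum (Y.presheaf.stalk x) from z).asIdeal

/-- **Theorem.** Let `X` be an integral smooth projective scheme over the number field `E`.  There are an integral scheme `Y`, all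
of whose local rings are regular, a separated flat morphism `g` locally of finite type from `Y` to the spectrum of the ring of
integers of `E`, whose generic fibre is `X`, a number `N ≠ 0`, whose zero set on `Y` is a divisor with strict normal crossings, and
an increasing sequence of quasi-compact open subsets `W q` of `Y`, which contain the open set where `N` is invertible, with the
following property: if `R` is a valuation ring and `N` is not in the power `q + 1` of its maximal ideal, then every morphism from
the spectrum of the fraction field of `R` to `Y`, for which the composition with `g` extends to `Spec R`, extends uniquely to a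
morphism from `Spec R` to `Y`, which has its values in `W q`.  For a discrete valuation ring of characteristic zero there is such
a `q`. -/
theorem result :
    ∀ (E : Type) [Field E] [NumberField E] (X : Scheme.{0}) (f : X ⟶ Spec (CommRingCat.of E)),
      IsIntegral X → Smooth f →
      (∃ (A : Type) (_ : CommRing A) (_ : Algebra E A) (𝒜 : ℕ → Submodule E A) (_ : GradedAlgebra 𝒜),
        (∀ a ∈ 𝒜 0, ∃ q : E, algebraMap E A q = a) ∧
        (∃ s : Finset A, (∀ a ∈ s, a ∈ 𝒜 1) ∧ Algebra.adjoin E (s : Set A) = ⊤) ∧ Nonempty (X ≅ Proj 𝒜)) →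
      ∃ (Y : Scheme.{0}) (g : Y ⟶ Spec (CommRingCat.of (NumberField.RingOfIntegers E))),
        IsIntegral Y ∧ (∀ y : Y, IsRegularLocalRing (Y.presheaf.stalk y)) ∧ IsSeparated g ∧
        LocallyOfFiniteType g ∧ Flat g ∧
        (∃ φ : X ≅ pullback g (Spec.map (CommRingCat.ofHom (algebraMap (NumberField.RingOfIntegers E) E))),
          φ.hom ≫ pullback.snd _ _ = f) ∧
        ∃ N : ℕ, N ≠ 0 ∧ (∀ y : Y, SNCAt (Y.basicOpen (N : Γ(Y, ⊤))) y) ∧
        ∃ W : ℕ → Y.Opens, Monotone W ∧ (∀ q, IsCompact (W q : Set Y)) ∧ Y.basicOpen (N : Γ(Y, ⊤)) ≤ W 0 ∧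
          ∀ (R : Type) [CommRing R] [IsDomain R] [ValuationRing R]
            (γ : Spec (CommRingCat.of (FractionRing R)) ⟶ Y)
            (δ : Spec (CommRingCat.of R) ⟶ Spec (CommRingCat.of (NumberField.RingOfIntegers E))),
            Spec.map (CommRingCat.ofHom (algebraMap R (FractionRing R))) ≫ δ = γ ≫ g →
            (∀ q, (N : R) ∉ IsLocalRing.maximalIdeal R ^ (q + 1) → ∃ β : Spec (CommRingCat.of R) ⟶ Y,
              Spec.map (CommRingCat.ofHom (algebraMap R (FractionRing R))) ≫ β = γ ∧ β ≫ g = δ ∧ (∀ z, β z ∈ W q) ∧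
              ∀ β' : Spec (CommRingCat.of R) ⟶ Y,
                Spec.map (CommRingCat.ofHom (algebraMap R (FractionRing R))) ≫ β' = γ → β' = β) ∧
            (IsDiscreteValuationRing R → CharZero R → ∃ q, (N : R) ∉ IsLocalRing.maximalIdeal R ^ (q + 1)) := by
  intro E _ _ X f hX hf hpr
  have hJ : Pool.Agent.Run7.h275.RB.J0 (NumberField.RingOfIntegers E) :=
    Pool.Agent.Run7.h24.RB.J0T Pool.Agent.Run7.h275.RB.j0_int (NumberField.RingOfIntegers E)
  obtain ⟨Y, g, h1, h2, h3, h4, h5, h6, N, hN, h7, W, h8, h9, h10, h11⟩ :=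
    Pool.Agent.Run7.h275.SC.t_MAINC E (NumberField.RingOfIntegers E) hJ
      (fun o => NumberField.RingOfIntegers.isIntegral o) X hX f (Pool.Agent.Run7.h617.S.t_SMR E X f hf) hpr
  refine ⟨Y, g, h1, h2, h3, h4, h5, h6, N, hN, ?_, W, h8, h9, h10, ?_⟩
  · intro x
    obtain ⟨d, t, J, h12, h13, h14⟩ := h7 x
    refine ⟨d, t, J, h12, h13, fun z => ?_⟩
    have := h14 z
    rwa [Category.comp_id] at this
  · intro R _ _ _ γ δ hsq
    constructor
    · intro q hq
      obtain ⟨β, hβ, hβg, hβW⟩ := h11 R γ δ q hq hsq
      refine ⟨β, hβ, hβg, hβW, fun β' hβ' => ?_⟩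
      exact Pool.Agent.Run7.h275.SC.ext_unique g h3 inferInstance R β' β (hβ'.trans hβ.symm)
    · intro hR hR0
      obtain ⟨-, -, -, -, h12⟩ := _root_.Run7.h410.SC.dvv R
      exact h12 (N : R) (Nat.cast_ne_zero.2 hN)

end Pool.Agent.Results.MP_6a3dac_ag.RegularModelsAllPoints
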