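import Pool.Agent.Results.MP_602153_ag.TorusActionsAtValuations
import Pool.Agent.Results.MP_6a3dac_ag.ModelsAtValuations

/-!
MP_6a3dac_ag: regular models at valuations of the varieties with a torus action over number fields, for ALL
primes and in all dimensions, over composites and towers of valuations of the quotient.

Let `O` be a Dedekind domain of characteristic zero (for example, the ring of integers of a number field
`K`), let `𝒳 = Proj O[W]` be an integral projective model with the function field `F` of a variety `X` over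
`K` of any dimension (for example, a smooth one), and let `E` be a subfield of `F` which contains `O`. Let `S`
be a finite set of prime numbers, and for all `p ∈ S` let `V_p` be a valuation ring of `F`, of any rank, in
which `p` is topologically nilpotent (a point of the adic space of `X` over a `p`-adic place of `K`).
Suppose that the restriction of `V_p` to `E` is in the smallest class (`Reachable` of the starting file
`ModelsAtValuations`) which contains the trivial, the discrete, the divergent and the log uniformizable
valuations (these are all valuations if the models of `E` have dimension at most `3`, by Cossart and Piltant;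
this is not used) and which is closed under composition of valuations and under towers without defect. Then
a blowing-up `𝒳'` of `𝒳` in a closed subscheme of the union of the fibres over the `p ∈ S`, which is a
projective flat model of `X`, is regular at the centres of all `V_p` and of all valuation rings which contain
one of the `V_p`, and the fibre over `p` is a divisor with normal crossings there, in each of the following
cases.

(1) `F / E` has the transcendence degree `r` and degree at most `δ`, `𝒳` is defined by polynomials of degree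
at most `e` over `E`, and the `p ∈ S` are greater than `(δ e ^ r) ^ 2 ^ r`.

(2) A torus `𝔾_m ^ r` acts linearly on `𝒳`, and `E` is the field of the invariant rational functions. There is
no condition on the primes, on `r`, on the dimension, the degree or the weights, and no condition on the
extension of the valuation `V_p ∩ E` to `F`: it may have any rank, residue field and defect.

So at every valuation the question for the varieties with a torus action is reduced to the quotient.

Relation to the starting files. `ModelsAtValuations` (this problem) is the case `E = F`: to go from a subfield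
`E` to `F` it needs a tower without defect. `BoundedDegreeAtValuations` (MP_602153_ag, helper98) is (1)
for the valuations whose restriction to `E` is discrete, divergent or log uniformizable; its proof is
followed here, with the class `Reachable` instead. (2) with the last condition is our
`MP_602153_ag.TorusActionsAtValuations`; the theorem on the function field of a variety with a torus action is
helper360's (`Run7/h360/TA`), used for points of `X^ad` in `MP_1a953e_ag.TorusActionsAdicPoints`.

helper562 and helper360; built on the library of the starting files (helpers 98, 176, 187, 188, 418).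
-/

set_option autoImplicit false

universe u

namespace Pool.Agent.Results.MP_6a3dac_ag.TorusActionsReachable

open MvPolynomial IsLocalRing Pool.Agent.W418.LU2 Pool.Agent.TH188.QS
open Pool.Agent.Results.MP_602153_ag
open Pool.Agent.Results.MP_602153_ag.BoundedDegreeAtValuations
  (chart IsVerticalCentre blowUpCoordinates IsRegularAtCentre DegreeAtMost IsProduct IsFraction
    IsDefinedInDegree)
open Pool.Agent.Results.MP_602153_ag.TorusActionsAtValuations
  (IsLinearAction IsInvariant isInvariant_iff frac_div frac_prod frac_zpow frac_mul)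
open Pool.Agent.Results.MP_6a3dac_ag.ModelsAtValuations (Reachable)

/-- There is a closed subscheme of `𝒳 = Proj O[W]`, contained in the union of the fibres over the
`p ∈ S`, such that the blowing-up of `𝒳` in this subscheme is, for all `p ∈ S`, regular at the centres of
`V p` and of all valuation rings `V₁ ⊇ V p`, with a fibre over `p` with normal crossings there. -/
def HasRegularModel {F : Type u} [Field F] (O : Subring F) (W : Set F) (S : Finset ℕ)
    (V : ℕ → ValuationSubring F) : Prop :=
  ∃ Y : Set F, IsVerticalCentre O ((∏ p ∈ S, p : ℕ) : F) W Y ∧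
    ∀ p ∈ S, ∀ V₁ : ValuationSubring F, V p ≤ V₁ →
      IsRegularAtCentre V₁ O (blowUpCoordinates W Y) (p : F)

/-- The projective models which are regular at the centre of one valuation. -/
lemma one {F : Type u} [Field F] [CharZero F] (O : Subring F) [IsDedekindDomain O]
    (W : Set F) (hW : W.Finite) (E : Subfield F) (N r δ e : ℕ) (he : 1 ≤ e) (x : Fin N → F)
    (hx : DegreeAtMost E x r δ) (hWx : IsDefinedInDegree O E x e W)
    (p : ℕ) (hpp : p.Prime) (hp : (δ * e ^ r) ^ 2 ^ r < p) (V : ValuationSubring F)
    (hOV : ∀ a ∈ O, a ∈ V) (hpV : V.valuation (p : F) < 1)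
    (htop : ∀ a : F, ∃ n : ℕ, (p : F) ^ n * a ∈ V)
    (ρ : O →+* E) (hρ : ∀ a : O, ((ρ a : E) : F) = a)
    (hEV : Reachable O ρ (V.comap E.subtype)) :
    ∃ Y, Pool.Agent.R187.CT.Vc O (p : F) W Y ∧
      Pool.Agent.R187.CT.Rc V O (Pool.Agent.H176.DT.bu W Y) (p : F) := by
  obtain ⟨htop', htr, C, hC⟩ := hx
  obtain ⟨⟨w₀, hw₀, hw₀0⟩, hWp, T, hT, hE, hTA⟩ := hWx
  have hOc : CharZero O := ⟨fun m n h => by
    have h1 := congrArg Subtype.val h
    push_cast at h1
    exact_mod_cast h1⟩
  have hR : HJ O := hj_dedekind
  have hOE : ∀ a : O, (a : F) ∈ E := by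
    intro a
    rw [hE]
    exact Subfield.subset_closure (Or.inl a.2)
  have hρ' : ρ = O.subtype.codRestrict E.toSubring hOE := by
    ext a
    exact hρ a
  have hgE : Pool.Agent.R187.CT.Good (O.subtype.codRestrict E.toSubring hOE : O →+* E)
      (V.comap (algebraMap E F)) := by
    have h1 := hEV.good hR
    rw [hρ'] at h1
    exact h1
  have hinf : Infinite E := by
    have h1 : CharZero E := ⟨fun m n h => by
      have h2 := congrArg Subtype.val h
      push_cast at h2
      exact_mod_cast h2⟩
    exact CharZero.infinite E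
  -- the chart
  obtain ⟨w, hw, hwm⟩ := Set.exists_max_image W V.valuation hW ⟨w₀, hw₀⟩
  have hw0 : w ≠ 0 := by
    rintro rfl
    have h1 := hwm w₀ hw₀
    rw [map_zero, le_zero_iff, map_eq_zero] at h1
    exact hw₀0 h1
  have hwV : ∀ v ∈ W, v / w ∈ V := by
    intro v hv
    rw [← V.valuation_le_one_iff, map_div₀]
    exact (div_le_one₀ (zero_lt_iff.2 ((map_ne_zero _).2 hw0))).2 (hwm v hv)
  have hp0 : (p : F) ≠ 0 := Nat.cast_ne_zero.2 hpp.ne_zero
  have hpE : IsProduct E x e (p : F) := by
    have h1 := Pool.Agent.N98.SS.pprod_const (E := E) (K := F) (x := x) (e := e) (p : E)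
    rwa [map_natCast] at h1
  have hprimes : ∀ q : ℕ, q.Prime → q ≤ (δ * e ^ r) ^ 2 ^ r → V.valuation (q : F) = 1 := by
    intro q hq hqb
    have hne : p ≠ q := by
      rintro rfl
      exact absurd hp (not_lt.2 hqb)
    have hcop : Nat.Coprime p q := (Nat.coprime_primes hpp hq).2 hne
    have h1 : (Nat.gcdA p q : ℤ) * p + (Nat.gcdB p q : ℤ) * q = 1 := by
      have h2 := Nat.gcd_eq_gcd_ab p q
      rw [hcop.gcd_eq_one] at h2
      push_cast at h2
      linarith
    refine le_antisymm ((V.valuation_le_one_iff _).2 (natCast_mem V q)) ?_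
    by_contra hcon
    push Not at hcon
    have h2 : ((Nat.gcdA p q : ℤ) : F) * (p : F) + ((Nat.gcdB p q : ℤ) : F) * (q : F) = 1 := by
      exact_mod_cast congrArg (Int.cast (R := F)) h1
    have h3 : V.valuation (1 : F) < 1 := by
      rw [← h2]
      have h5 : ∀ (a : ℤ) (x : F), V.valuation x < 1 → V.valuation ((a : F) * x) < 1 := by
        intro a x hx
        rw [map_mul]
        calc V.valuation (a : F) * V.valuation x
            ≤ 1 * V.valuation x :=
              mul_le_mul' ((V.valuation_le_one_iff _).2 (intCast_mem _ _)) le_rfl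
          _ < 1 := by rw [one_mul]; exact hx
      exact lt_of_le_of_lt (V.valuation.map_add _ _) (max_lt (h5 _ _ hpV) (h5 _ _ hcon))
    rw [map_one] at h3
    exact lt_irrefl _ h3
  obtain ⟨hxA, hTA'⟩ := hTA w hw hw0
  obtain ⟨hMod, T', n, X, hSt, hmon⟩ := Pool.Agent.N98.SS.stage_of_model' V O
    (fun a ha => hOV a ha) hR E he x htop' htr C hC hprimes hW hWp hw hwV hxA hT hE
    hTA' hOE hgE {(p : F)} (Set.finite_singleton _) (by
      rintro g rfl
      exact ⟨hp0, natCast_mem V p, hpE⟩)
  obtain ⟨Y, d, n, h1, h2, h3, w', h4, h5, h6, h7⟩ :=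
    Pool.Agent.N98.SS.model_at_of V O hOV hW hw hw0 hwV hSt (hmon _ rfl) (natCast_mem _ p) htop
  exact ⟨Y, ⟨h1, d, n, h2, h3⟩, w', h4, h5, h6, h7⟩

/-- The case of bounded degree. -/
lemma bounded {F : Type u} [Field F] [CharZero F] (O : Subring F) [IsDedekindDomain O]
    (S : Finset ℕ) (hS : ∀ p ∈ S, p.Prime)
    (V : ℕ → ValuationSubring F) (hOV : ∀ p ∈ S, ∀ a ∈ O, a ∈ V p)
    (hpV : ∀ p ∈ S, (V p).valuation (p : F) < 1)
    (htop : ∀ p ∈ S, ∀ a : F, ∃ n : ℕ, (p : F) ^ n * a ∈ V p)
    (E : Subfield F) (ρ : O →+* E) (hρ : ∀ a : O, ((ρ a : E) : F) = a)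
    (hEV : ∀ p ∈ S, Reachable O ρ ((V p).comap E.subtype))
    (W : Set F) (hW : W.Finite) (N r δ e : ℕ) (x : Fin N → F) (he : 1 ≤ e)
    (hx : DegreeAtMost E x r δ) (hWx : IsDefinedInDegree O E x e W)
    (hp : ∀ p ∈ S, (δ * e ^ r) ^ 2 ^ r < p) : HasRegularModel O W S V := by
  obtain ⟨Y, hY1, hY2⟩ := Pool.Agent.N98.SS.multi_prod O S hS V hOV hpV W fun p hpS =>
    one O W hW E N r δ e he x hx hWx p (hS p hpS) (hp p hpS) (V p) (hOV p hpS) (hpV p hpS)
      (htop p hpS) ρ hρ (hEV p hpS)
  refine ⟨Y, hY1, fun p hpS V₁ hV₁ => ?_⟩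
  obtain ⟨w, hw, hw0, hwV, hNC⟩ := hY2 p hpS
  refine ⟨w, hw, hw0, fun v hv => hV₁ (hwV v hv), ?_⟩
  refine Pool.Agent.N98.SS.nc_coarse (V p) V₁ hV₁ _ ?_ (p : F) hNC
  unfold BoundedDegreeAtValuations.chart
  rw [Subring.closure_le]
  rintro z (hz | ⟨y, hy, rfl⟩)
  · exact hOV p hpS z hz
  · exact hwV y hy

/-- Let `F` be a field of characteristic zero, let `O ⊆ F` be a Dedekind domain (for example, the ring of
integers of a number field), let `S` be a finite set of primes, and for all `p ∈ S` let
`V p ⊇ O` be a valuation ring of `F`, of any rank, with `|p| < 1` and `F = (V p)[1/p]`. Let `E` be a subfield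
of `F` which contains `O` (`ρ` is the inclusion) such that the restrictions of the `V p` to `E` are in the
class `Reachable`. Then a blowing-up of `𝒳` in a closed subscheme of the union of the fibres over the
`p ∈ S` is regular at the centres of the `V p` and of all valuation rings which contain one of them, with
fibres over `p` with normal crossings there (`HasRegularModel`), in the following cases.

(1) `𝒳 = Proj O[W]` is an integral projective scheme with the function field `F`, the field `F` has
transcendence degree `r` and degree at most `δ` over `E`, `𝒳` is defined in degree `e ≥ 1`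
over `E`, and the `p ∈ S` are greater than `(δ e ^ r) ^ 2 ^ r`.

(2) `𝒳 = Proj O[z 1, ..., z m]` is an integral projective scheme with the function field `F` and the
homogeneous coordinates `z i` (all not zero, and one of them equal to `1`), on which the torus `𝔾_m ^ r`
acts, `z i` is multiplied by the character `w i`, and `E` is the field of the invariant rational
functions. -/
theorem result {F : Type u} [Field F] [CharZero F] (O : Subring F) [IsDedekindDomain O]
    (S : Finset ℕ) (hS : ∀ p ∈ S, p.Prime)
    (V : ℕ → ValuationSubring F) (hOV : ∀ p ∈ S, ∀ a ∈ O, a ∈ V p)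
    (hpV : ∀ p ∈ S, (V p).valuation (p : F) < 1)
    (htop : ∀ p ∈ S, ∀ a : F, ∃ n : ℕ, (p : F) ^ n * a ∈ V p)
    (E : Subfield F) (ρ : O →+* E) (hρ : ∀ a : O, ((ρ a : E) : F) = a)
    (hEV : ∀ p ∈ S, Reachable O ρ ((V p).comap E.subtype)) :
    (∀ (W : Set F), W.Finite → ∀ (N r δ e : ℕ) (x : Fin N → F), 1 ≤ e → DegreeAtMost E x r δ →
      IsDefinedInDegree O E x e W → (∀ p ∈ S, (δ * e ^ r) ^ 2 ^ r < p) →
        HasRegularModel O W S V) ∧
    (∀ (m r : ℕ) (z : Fin m → F), (∀ i, z i ≠ 0) → (∃ i, z i = 1) →
      (∀ y : F, ∃ P Q : MvPolynomial (Fin m) O, aeval z Q ≠ 0 ∧ y = aeval z P / aeval z Q) →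
      ∀ w : Fin m → (Fin r → ℤ), IsLinearAction O z w →
        (∀ x : F, x ∈ E ↔ IsInvariant O z w x) → HasRegularModel O (Set.range z) S V) := by
  refine ⟨fun W hW N r δ e x he hx hWx hp =>
    bounded O S hS V hOV hpV htop E ρ hρ hEV W hW N r δ e x he hx hWx hp, ?_⟩
  rintro m r z hz0 ⟨i₀, hi₀⟩ hF w hact hE
  classical
  have hEeq : E = Pool.Agent.Run7.h360.TA.Adic.invField O z w := by
    ext x
    rw [hE, isInvariant_iff]
  have hst := Pool.Agent.Run7.h360.TA.Adic.structure_thm (O := O) (z := z) (w := w) hact hz0 i₀ hi₀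
    hF
  rw [← hEeq] at hst
  obtain ⟨n, x, a, c, ez, hx, ha, hx0, ha0, hza, haz, hind, hcl, htp⟩ := hst
  obtain ⟨htr, cc, hC⟩ := Pool.Agent.Run7.h360.TA.Adic.degree_one x hind htp
  have hzp : ∀ i, IsProduct E x 1 (z i) := by
    intro i
    refine ⟨n + 1, Fin.cons (C (⟨a i, ha i⟩ : E)) (fun j => X j), Fin.cons 1 (c i), ?_, ?_⟩
    · intro j
      refine Fin.cases ?_ (fun j => ?_) j
      · rw [Fin.cons_zero, totalDegree_C]
        exact Nat.zero_le _
      · rw [Fin.cons_succ]
        exact (totalDegree_X j).le
    · rw [Fin.prod_univ_succ]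
      simp only [Fin.cons_zero, Fin.cons_succ, zpow_one, aeval_X, aeval_C]
      exact hza i
  have hdiv : ∀ l i : Fin m, z i / z l ∈ chart O (Set.range z) (z l) := fun l i =>
    Subring.subset_closure (Or.inr ⟨z i, ⟨i, rfl⟩, rfl⟩)
  have hf1 : ∀ l i : Fin m, IsFraction E x 1 (chart O (Set.range z) (z l)) (z i) := by
    intro l i
    have h := frac_div (E := E) (x := x) (y := z i) (hz0 i₀) (hz0 l) (hdiv l i) (hdiv l i₀)
      (hzp i₀) (hzp l)
    rwa [hi₀, div_one] at h
  have hf2 : ∀ l i : Fin m, IsFraction E x 1 (chart O (Set.range z) (z l)) (z i)⁻¹ := by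
    intro l i
    have h := frac_div (E := E) (x := x) (y := z i₀) (hz0 i) (hz0 l) (hdiv l i₀) (hdiv l i)
      (hzp i) (hzp l)
    rwa [hi₀, one_div] at h
  have hfx : ∀ (l : Fin m) (j : Fin n), IsFraction E x 1 (chart O (Set.range z) (z l)) (x j) := by
    intro l j
    rw [hx j]
    exact frac_prod _ _ fun i _ => frac_zpow (hf1 l i) (hf2 l i) _
  have hxi : ∀ (l : Fin m) (j : Fin n),
      IsFraction E x 1 (chart O (Set.range z) (z l)) (x j)⁻¹ := by
    intro l j
    rw [hx j, ← Finset.prod_inv_distrib]
    refine frac_prod _ _ fun i _ => ?_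
    rw [← zpow_neg]
    exact frac_zpow (hf1 l i) (hf2 l i) _
  refine bounded O S hS V hOV hpV htop E ρ hρ hEV (Set.range z) (Set.finite_range z) n n 1 1 x le_rfl
    ⟨htp, htr, cc, hC⟩ ⟨⟨z i₀, ⟨i₀, rfl⟩, hz0 i₀⟩, ?_, Set.range a, Set.finite_range a, hcl, ?_⟩ ?_
  · rintro _ ⟨i, rfl⟩
    exact hzp i
  · rintro _ ⟨l, rfl⟩ -
    refine ⟨fun j => hfx l j, ?_⟩
    rintro _ ⟨i, rfl⟩
    rw [haz i]
    exact frac_mul (hf1 l i) (frac_prod _ _ fun j _ => frac_zpow (hfx l j) (hxi l j) _)
  · intro p hpS
    simp only [one_pow, one_mul]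
    exact (hS p hpS).one_lt

end Pool.Agent.Results.MP_6a3dac_ag.TorusActionsReachable
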