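import Pool.Agent.Run7.h275.AP6
import Pool.Agent.TH188.QS.Cls

/-!
# One tower of point blow-ups of a model which is regular at all points with values in local fields

Let `E` be a number field with the ring of integers `O`, let `X` be an integral projective variety over `E` with regular
local rings (for example a smooth one), of any dimension, with the function field `F`, and let `𝒳_0` be any integral
projective flat model of `X` over `O`.  Let `p ∈ O`, `p ≠ 0` (for example `p = 1`, where the condition on normal
crossings is empty).  Let `𝒳_(k+1)` be the blowing-up of `𝒳_k` in its (finitely many) closed points with residue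
fields with at most `k` elements at which `𝒳_k` is not regular or the divisor of `p` does not have normal crossings.
There is an integer `N ≠ 0` which depends only on `𝒳_0` such that for every valuation ring `R` (of any rank, of
characteristic zero or positive, for example the ring of integers of a finite extension of a completion of `E`, with
arbitrary ramification) with a finite residue field and all `e` with `N p ∉ 𝔪 ^ (e + 1)` the following holds: at the
images of the closed point of `R` under all the `R`-valued points of `𝒳_k`, the model `𝒳_k` is regular and the divisor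
of `p` has normal crossings, for all `k ≥ |R/𝔪| + e`.

The schemes are described in the function field, as in earlier files: an integral projective flat `O`-scheme is
`Proj O[M]` for a finitely generated `O`-submodule `M ⊆ F` (the homogeneous coordinates), with the charts
`Spec O[m / w : m ∈ M]`, `w ∈ M`, `w ≠ 0`, and its points correspond to their local rings in `F`, which are the local
rings at the centres of the valuation rings of `F` containing `O`.

The proof uses the library `Pool.Agent.TH188.ARC` of the starting files, made for models which are regular at the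
points of bounded degree with values in number fields (in particular `uniform_int`, the integer `N`).
-/

set_option autoImplicit false

namespace Pool.Agent.Results.MP_6a3dac_ag.TowerOfPointBlowUps

open IsLocalRing NumberField

section definitions

variable (O : Type) {F : Type} [CommRing O] [Field F] [Algebra O F]

/-- The coordinate ring `O[m / w : m ∈ M]` of the chart `w ≠ 0` of the projective scheme `Proj O[M]` with the
homogeneous coordinates `M ⊆ F`. -/
def chart (M : Submodule O F) (w : F) : Subring F :=
  (Algebra.adjoin O {z | ∃ m ∈ M, z = m / w}).toSubring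

/-- The local ring of `Spec B` at the centre of the valuation ring `V`: the fractions of elements of `B` whose
denominators are units of `V`. -/
def centreRing (V : ValuationSubring F) (B : Subring F) : Subring F where
  carrier := {x | ∃ a ∈ B, ∃ b ∈ B, b ≠ 0 ∧ b⁻¹ ∈ V ∧ x = a * b⁻¹}
  mul_mem' := (Pool.Agent.W418.LU2.lo V.toSubring B).mul_mem'
  one_mem' := (Pool.Agent.W418.LU2.lo V.toSubring B).one_mem'
  add_mem' := (Pool.Agent.W418.LU2.lo V.toSubring B).add_mem'
  zero_mem' := (Pool.Agent.W418.LU2.lo V.toSubring B).zero_mem'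
  neg_mem' := (Pool.Agent.W418.LU2.lo V.toSubring B).neg_mem'

/-- The valuation ring `V` of the function field contains the base ring. -/
def Contains (V : ValuationSubring F) : Prop := ∀ o : O, algebraMap O F o ∈ V

variable {O} in
/-- `Q` is the local ring of `Proj O[M]` at the centre of the valuation ring `V`, which lies in the chart `w ≠ 0`. -/
def IsLocalRingAt (V : ValuationSubring F) (M : Submodule O F) (Q : Subring F) : Prop :=
  ∃ w ∈ M, w ≠ 0 ∧ (∀ m ∈ M, m / w ∈ V) ∧ centreRing V (chart O M w) = Q

/-- The quadratic transform of `Q` along `V`: the local ring, at the centre of `V`, of the blowing-up of `Spec Q` in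
the centre of `V`.  (The element `z` generates the extension of the maximal ideal to `V`.) -/
def quadraticTransform (V : ValuationSubring F) (Q : Subring F) : Subring F :=
  centreRing V (Subring.closure ((Q : Set F) ∪ {t | ∃ y ∈ Q, ∃ z ∈ Q,
    V.valuation y < 1 ∧ z ≠ 0 ∧ V.valuation z < 1 ∧
      (∀ w ∈ Q, V.valuation w < 1 → V.valuation w ≤ V.valuation z) ∧ t = y / z}))

variable {O} in
/-- The local ring `Q` is regular and the divisor of `p ∈ O` has normal crossings: `p` generates the same ideal as a
monomial in a regular system of parameters. -/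
def HasNormalCrossings (p : O) (Q : Subring F) : Prop :=
  ∃ (hp : algebraMap O F p ∈ Q) (_ : IsRegularLocalRing Q) (r : ℕ) (x : Fin r → Q) (α : Fin r → ℕ),
    Ideal.span (Set.range x) = maximalIdeal Q ∧ ringKrullDim Q = r ∧
      Ideal.span {(⟨algebraMap O F p, hp⟩ : Q)} = Ideal.span {∏ i, x i ^ α i}

variable {O} in
/-- The points of `Proj O[M]` (given by their local rings) which have residue fields with at most `d` elements and at
which `Proj O[M]` is not regular or the divisor of `p` does not have normal crossings. -/
def badPoints (p : O) (d : ℕ) (M : Submodule O F) : Set (Subring F) :=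
  {Q | (∃ V : ValuationSubring F, Contains O V ∧ IsLocalRingAt V M Q) ∧ ¬ HasNormalCrossings p Q ∧
    ∃ _ : IsLocalRing Q, Finite (ResidueField Q) ∧ Nat.card (ResidueField Q) ≤ d}

variable {O} in
/-- `Proj O[M']` is the blowing-up of `Proj O[M]` in the closed points `S`: the local ring at the centre of any
valuation ring of the function field is unchanged outside of `S`, and is replaced by its quadratic transform if the
centre is in `S`. -/
def IsBlowUp (S : Set (Subring F)) (M M' : Submodule O F) : Prop :=
  ∀ V : ValuationSubring F, Contains O V → ∀ Q, IsLocalRingAt V M Q →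
    (Q ∈ S → IsLocalRingAt V M' (quadraticTransform V Q)) ∧ (Q ∉ S → IsLocalRingAt V M' Q)

variable {O} in
/-- The tower of the models `Proj O[M k]`: each one is the blowing-up of the preceding one in its points with residue
fields with at most `k` elements at which it is not regular or the divisor of `p` does not have normal crossings;
there are finitely many such points. -/
def IsTower (p : O) (M : ℕ → Submodule O F) : Prop :=
  ∀ k, (M k).FG ∧ (badPoints p k (M k)).Finite ∧ IsBlowUp (badPoints p k (M k)) (M k) (M (k + 1))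

variable {O} in
/-- The point `γ` of `Spec B` with values in `R` lifts to a point of `Proj O[M]` with values in `R`, and at the image of
the closed point of `R`, with the local ring `Q`, the scheme `Proj O[M]` is regular and the divisor of `p` has normal
crossings. (The lift is given by a local homomorphism `γ' : Q → R`.) -/
def LiftsWell (p : O) (M : Submodule O F) {B : Subring F} {L : Type} [Field L] {R : ValuationSubring L}
    (γ : B →+* R) : Prop :=
  ∃ (V : ValuationSubring F) (Q : Subring F), Contains O V ∧ IsLocalRingAt V M Q ∧ HasNormalCrossings p Q ∧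
    ∃ (h : B ≤ Q) (γ' : Q →+* R), (∀ b : B, γ' ⟨b, h b.2⟩ = γ b) ∧ ∀ b : Q, IsUnit (γ' b) → IsUnit b

/-- The projective variety over the field `E` with the homogeneous coordinates `y` is regular: the local rings of its
charts `Spec E[y j / y i]` are regular. -/
def IsRegularVariety (E : Type) [Field E] [Algebra E F] {n : ℕ} (y : Fin n → F) : Prop :=
  ∀ (i : Fin n) (P : Ideal (Algebra.adjoin E (Set.range fun j => y j / y i)).toSubring) [P.IsPrime],
    IsRegularLocalRing (Localization.AtPrime P)

end definitions

open Pool.Agent.TH188.QS Pool.Agent.W418.LU2 Pool.Agent.TH188.ARC Pool.Agent.Run7.h275.AP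

section

variable {O F : Type} [CommRing O] [Field F] [Algebra O F]

lemma qt_eq' (V : ValuationSubring F) (Q : Subring F) : quadraticTransform V Q = qt V.toSubring Q := by
  rw [qt_val]
  rfl

lemma isLocalRing_of {V : ValuationSubring F} {Q : Subring F} (hQV : Q ≤ V.toSubring) (hIC : IC V.toSubring Q) :
    IsLocalRing Q ∧ ∀ b : Q, IsUnit b ↔ ¬ V.valuation (b : F) < 1 := by
  have hu : ∀ b : Q, IsUnit b ↔ ¬ V.valuation (b : F) < 1 := by
    intro b
    constructor
    · intro hb hlt
      obtain ⟨c, hc⟩ := isUnit_iff_exists_inv.1 hb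
      have h1 : (b : F) * (c : F) = 1 := congrArg Subtype.val hc
      have h2 := mul_lt_one_aux' hlt ((V.valuation_le_one_iff _).2 (hQV c.2))
      rw [← map_mul, h1, map_one] at h2
      exact lt_irrefl _ h2
    · intro hlt
      have hb0 : (b : F) ≠ 0 := by
        intro h0
        apply hlt
        rw [h0, map_zero]
        exact zero_lt_one
      rw [Pool.Agent.TH188.ARC.val_lt_iff hb0, not_not] at hlt
      exact isUnit_iff_exists_inv.2 ⟨⟨_, hIC b b.2 hb0 hlt⟩, Subtype.ext (mul_inv_cancel₀ hb0)⟩
  refine ⟨?_, hu⟩
  refine IsLocalRing.of_isUnit_or_isUnit_one_sub_self fun a => ?_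
  rw [hu, hu]
  by_contra hcon
  push Not at hcon
  have h1 := Valuation.map_add_lt _ hcon.1 hcon.2
  have h2 : (a : F) + ((1 - a : Q) : F) = 1 := by
    change (a : F) + (1 - (a : F)) = 1
    ring
  rw [h2, map_one] at h1
  exact lt_irrefl _ h1

lemma rz_iff {V : ValuationSubring F} {Q : Subring F} (hQV : Q ≤ V.toSubring) (hIC : IC V.toSubring Q) (d : ℕ) :
    Rz d V Q ↔ ∃ _ : IsLocalRing Q, Finite (ResidueField Q) ∧ Nat.card (ResidueField Q) ≤ d := by
  classical
  obtain ⟨hloc, hu⟩ := isLocalRing_of hQV hIC
  have hres : ∀ b : Q, residue Q b = 0 ↔ V.valuation (b : F) < 1 := by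
    intro b
    rw [residue_eq_zero_iff, mem_maximalIdeal, mem_nonunits_iff, hu, not_not]
  constructor
  · rintro ⟨q, hq2, hqd, -, hq⟩
    refine ⟨hloc, ?_⟩
    let P : Polynomial (ResidueField Q) := Polynomial.X ^ q - Polynomial.X
    have hP : P.Monic := Polynomial.monic_X_pow_sub (by
      refine lt_of_le_of_lt Polynomial.degree_X_le ?_
      exact_mod_cast hq2)
    have hP0 : P ≠ 0 := hP.ne_zero
    have hdeg : P.natDegree = q := by
      have := Polynomial.natDegree_sub_eq_left_of_natDegree_lt (p := (Polynomial.X ^ q : Polynomial (ResidueField Q)))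
        (q := Polynomial.X) (by rw [Polynomial.natDegree_X, Polynomial.natDegree_X_pow]; omega)
      rw [this, Polynomial.natDegree_X_pow]
    have hroot : ∀ z : ResidueField Q, z ∈ P.roots.toFinset := by
      intro z
      obtain ⟨b, rfl⟩ := residue_surjective z
      rw [Multiset.mem_toFinset, Polynomial.mem_roots hP0, Polynomial.IsRoot.def]
      simp only [P, Polynomial.eval_sub, Polynomial.eval_pow, Polynomial.eval_X]
      rw [← map_pow, ← map_sub, hres]
      have := hq b b.2
      simpa using this
    have hfin : Finite (ResidueField Q) :=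
      Set.finite_univ_iff.1 (P.roots.toFinset.finite_toSet.subset fun z _ => hroot z)
    refine ⟨hfin, ?_⟩
    have := Fintype.ofFinite (ResidueField Q)
    rw [Nat.card_eq_fintype_card, ← Finset.card_univ]
    calc (Finset.univ : Finset (ResidueField Q)).card ≤ P.roots.toFinset.card :=
          Finset.card_le_card fun z _ => hroot z
      _ ≤ Multiset.card P.roots := Multiset.toFinset_card_le _
      _ ≤ P.natDegree := Polynomial.card_roots' P
      _ ≤ d := by rw [hdeg]; exact hqd
  · rintro ⟨_, hf, hc⟩
    have := Fintype.ofFinite (ResidueField Q)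
    refine ⟨Nat.card (ResidueField Q), Finite.one_lt_card, hc, ?_, ?_⟩
    · have h := (hres ((Nat.card (ResidueField Q) : ℕ) : Q)).1 (by
        rw [map_natCast, Nat.card_eq_fintype_card]
        exact Nat.cast_card_eq_zero (ResidueField Q))
      simpa using h
    · intro b hb
      have h := (hres (⟨b, hb⟩ ^ Nat.card (ResidueField Q) - ⟨b, hb⟩)).1 (by
        rw [map_sub, map_pow, Nat.card_eq_fintype_card, FiniteField.pow_card, sub_self])
      simpa using h

lemma hnc_iff {M₀ : Submodule O F} {p : O} (hp : algebraMap O F p ≠ 0) {V : ValuationSubring F} {Q : Subring F}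
    (hQV : Q ≤ V.toSubring) (hIC : IC V.toSubring Q) (hOQ : ∀ o, algebraMap O F o ∈ Q)
    {w : F} (hw : w ∈ M₀) (hw0 : w ≠ 0) (hwQ : ∀ m ∈ M₀, m / w ∈ Q) :
    HasNormalCrossings p Q ↔ NCr M₀ (Submodule.span O {algebraMap O F p}) 0 Q := by
  rw [ncr_span hp hQV hIC hOQ hw hw0 hwQ]
  constructor
  · rintro ⟨_, h⟩
    exact h
  · intro h
    exact ⟨hOQ p, h⟩

lemma o_mem {V : ValuationSubring F} {M : Submodule O F} {Q : Subring F} (hQ : LR V M Q) :
    ∀ o, algebraMap O F o ∈ Q := by
  intro o
  obtain ⟨g, hg, hg0, hgV, rfl⟩ := hQ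
  exact le_lo _ _ (Subalgebra.algebraMap_mem _ o)

lemma badPoints_eq {M₀ : Submodule O F} {p : O} (hp : algebraMap O F p ≠ 0) (d : ℕ) {M : Submodule O F}
    (hDm : Dm M₀ M) :
    badPoints p d M = SB (fun Q => ¬ NCr M₀ (Submodule.span O {algebraMap O F p}) 0 Q) d M := by
  ext Q
  constructor
  · rintro ⟨⟨V, hOV, hQ⟩, hreg, hR⟩
    have hQ' : LR V M Q := hQ
    obtain ⟨h1, h2⟩ := LR.facts hOV hQ'
    obtain ⟨w, hw, hw0, hwQ⟩ := hDm V hOV Q hQ'
    exact ⟨V, hOV, hQ', (rz_iff h1 h2 d).2 hR, fun h => hreg
      ((hnc_iff hp h1 h2 (o_mem hQ') hw hw0 hwQ).2 h)⟩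
  · rintro ⟨V, hOV, hQ, hR, hreg⟩
    obtain ⟨h1, h2⟩ := LR.facts hOV hQ
    obtain ⟨w, hw, hw0, hwQ⟩ := hDm V hOV Q hQ
    exact ⟨⟨V, hOV, hQ⟩, fun h => hreg ((hnc_iff hp h1 h2 (o_mem hQ) hw hw0 hwQ).1 h),
      (rz_iff h1 h2 d).1 hR⟩

end

/-- **The tower of point blow-ups of a model.**  Let `E` be a number field with the ring of integers `𝓞 E`, and let
`X = Proj E[y_1, …, y_n]` be an integral projective variety with the homogeneous coordinates `y_i ∈ F^*` and with
regular local rings.  There is `N ≠ 0` such that for all `p ∈ 𝓞 E`, `p ≠ 0`, there are finitely generated modules `M k`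
such that the models `𝒳_k = Proj (𝓞 E)[M k]` have the following properties.

* `𝒳_0 = Proj (𝓞 E)[y_1, …, y_n]`, and `𝒳_(k+1)` is the blowing-up of `𝒳_k` in the closed points with residue fields with
at most `k` elements at which `𝒳_k` is not regular or the divisor of `p` does not have normal crossings; there are
finitely many such points.
* Let `R` be a valuation ring of any field `L`, with a finite residue field, and let `N p ∉ 𝔪 ^ (e + 1)`.  Then for all
points `γ` of `𝒳_0` with values in `R` (in the chart `i`) and all `k ≥ |R/𝔪| + e` there is a point of `𝒳_k` with the local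
ring `Q`, at which `𝒳_k` is regular and the divisor of `p` has normal crossings, and a lift `γ' : Q → R` of `γ` which is
a local homomorphism. -/
theorem result (E F : Type) [Field E] [NumberField E] [Field F] [Algebra E F] [Algebra (𝓞 E) F]
    [IsScalarTower (𝓞 E) E F] (n : ℕ) (hn : 0 < n) (y : Fin n → F) (hy : ∀ i, y i ≠ 0)
    (hreg : IsRegularVariety E y) :
    ∃ N : ℕ, N ≠ 0 ∧ ∀ p : 𝓞 E, p ≠ 0 →
      ∃ M : ℕ → Submodule (𝓞 E) F, M 0 = Submodule.span (𝓞 E) (Set.range y) ∧ IsTower p M ∧
        ∀ (L : Type) [Field L] (R : ValuationSubring L), Finite (ResidueField R) →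
          ∀ (i : Fin n) (γ : chart (𝓞 E) (M 0) (y i) →+* R) (e : ℕ),
            (N : R) * γ ⟨algebraMap (𝓞 E) F p, Subalgebra.algebraMap_mem _ p⟩ ∉ maximalIdeal R ^ (e + 1) →
            ∀ k, Nat.card (ResidueField R) + e ≤ k → LiftsWell p (M k) γ := by
  have hint : ∀ o : 𝓞 E, IsIntegral ℤ o := fun o => RingOfIntegers.isIntegral o
  obtain ⟨N, hN, hst⟩ := uniform_int (O := 𝓞 E) (K := E) hint y hy (fun i P _ => hreg i P)
  refine ⟨N, hN, fun p hp => ?_⟩
  have hinj : Function.Injective (algebraMap (𝓞 E) F) := by
    rw [IsScalarTower.algebraMap_eq (𝓞 E) E F]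
    exact (algebraMap E F).injective.comp (IsFractionRing.injective (𝓞 E) E)
  have hpF : algebraMap (𝓞 E) F p ≠ 0 := fun h => hp (hinj (by rw [h, map_zero]))
  have hND : Submodule.span (𝓞 E) {algebraMap (𝓞 E) F p} ≠ ⊥ := by
    rw [Ne, Submodule.span_singleton_eq_bot]
    exact hpF
  have hNM : Submodule.span (𝓞 E) {algebraMap (𝓞 E) F p} ≤ Submodule.span (𝓞 E) (Set.range y) ^ 0 := by
    rw [pow_zero, Submodule.span_singleton_le_iff_mem, Submodule.mem_one]
    exact ⟨p, rfl⟩
  obtain ⟨M, h0, hne, hk, hR⟩ := main_star (O := 𝓞 E) hn y hy hND hNM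
  have hDm : ∀ k, Dm (Submodule.span (𝓞 E) (Set.range y)) (M k) :=
    dm_all h0 (fun k => (hk k).1) hne (fun k => (hk k).2.2)
  refine ⟨M, h0, fun k => ?_, ?_⟩
  · obtain ⟨h1, h2, h3⟩ := hk k
    rw [badPoints_eq hpF k (hDm k)]
    refine ⟨h1, h2, fun V hV Q hQ => ?_⟩
    rw [qt_eq']
    exact h3 V hV Q hQ
  · intro L _ R hf i
    rw [h0]
    intro γ e he k hke
    have hNc : (N : F) ∈ chart (𝓞 E) (Submodule.span (𝓞 E) (Set.range y)) (y i) := natCast_mem _ N
    have h5 : γ ⟨N, hNc⟩ = (N : R) := by
      have h6 : (⟨N, hNc⟩ : chart (𝓞 E) (Submodule.span (𝓞 E) (Set.range y)) (y i)) =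
          ((N : ℕ) : chart (𝓞 E) (Submodule.span (𝓞 E) (Set.range y)) (y i)) := by
        apply Subtype.ext
        rfl
      rw [h6, map_natCast]
    have h7 : γ (⟨N, hNc⟩ * ⟨algebraMap (𝓞 E) F p, Subalgebra.algebraMap_mem _ p⟩) =
        (N : R) * γ ⟨algebraMap (𝓞 E) F p, Subalgebra.algebraMap_mem _ p⟩ := by
      rw [map_mul, h5]
    obtain ⟨V, Q, h1, h2, h3, h4⟩ := hR L R hf i γ ⟨N, hNc⟩
      ⟨algebraMap (𝓞 E) F p, Subalgebra.algebraMap_mem _ p⟩ (hst i)
      ⟨algebraMap (𝓞 E) F p, Submodule.mem_span_singleton_self _, by rw [pow_zero, div_one]⟩ e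
      (fun hcon => he (h7 ▸ hcon)) k hke
    obtain ⟨w, hw, hw0, hwQ⟩ := hDm k V h1 Q h2
    obtain ⟨f1, f2⟩ := LR.facts h1 h2
    exact ⟨V, Q, h1, h2, (hnc_iff hpF f1 f2 (o_mem h2) hw hw0 hwQ).2 h3, h4⟩

end Pool.Agent.Results.MP_6a3dac_ag.TowerOfPointBlowUps
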